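import Mathlib
import Pool.Agent.H6.Toric.ParamB

/-!
# Special sets of log Fano and log Calabi-Yau complete intersection pairs in toric varieties

Let `T` be a group of diagonal matrices acting on `ℂ^ι`.  The toric varieties are quotients
`Z = (ℂ^ι \ B) / T` (Cox's construction), closed subvarieties of `Z` are given by `T`-homogeneous
polynomials `G_1, …, G_c`, and a divisor `D` by a `T`-homogeneous polynomial `H`.  If `H` vanishes
on the irrelevant locus `B` (for instance if `D` is ample) then `X = {G_1 = … = G_c = 0} \ D` is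
the quotient of `{G_1 = … = G_c = 0, H ≠ 0} ⊆ ℂ^ι` by `T`.

A movable curve class `β` on `Z` is given by its intersection numbers `b i = β · {x_i = 0}`; it
makes `G_j` and `H` weighted homogeneous of degrees `e_j = β · {G_j = 0}` and `d = β · D`, and
`(K_X + D) · β = ∑ e_j + d - ∑ b_i`.  We prove that if this number is at most `0` and `d ≥ 2`, and
`β` is indecomposable, or if it is at most `0`, `d ≥ 1` and the equations are invariant under a
reflection `x_w ↦ -x_w`, then `X` is covered by non-constant images of the multiplicative group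
`G_m`.  So the special sets `Sp_sab`, `Sp_h`, `Sp_p`, `Sp_alg` are equal to `X`.
-/

set_option autoImplicit false

open Filter Topology

namespace Pool.Agent.Results.MP_160ed4_ag.ToricLogCY

/-! ### Definitions -/

/-- Two points of `ℂ^ι` are equivalent if they differ by an element of the diagonal group `T`. -/
def orbitSetoid {ι : Type} (T : Subgroup (ι → ℂˣ)) : Setoid (ι → ℂ) where
  r x y := ∃ g ∈ T, ∀ i, y i = (g i : ℂ) * x i
  iseqv := by
    refine ⟨fun x => ⟨1, T.one_mem, by simp⟩, ?_, ?_⟩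
    · rintro x y ⟨g, hg, h⟩
      refine ⟨g⁻¹, T.inv_mem hg, fun i => ?_⟩
      rw [h i]
      simp
    · rintro x y z ⟨g, hg, h⟩ ⟨k, hk, h'⟩
      refine ⟨k * g, T.mul_mem hk hg, fun i => ?_⟩
      rw [h' i, h i]
      simp [mul_assoc]

/-- The set of `T`-orbits in `ℂ^ι`. -/
def Orbits {ι : Type} (T : Subgroup (ι → ℂˣ)) : Type := Quotient (orbitSetoid T)

/-- The orbit of `x`, i.e. the point with homogeneous coordinates `x`. -/
def pt {ι : Type} (T : Subgroup (ι → ℂˣ)) (x : ι → ℂ) : Orbits T :=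
  Quotient.mk (orbitSetoid T) x

/-- `Q` is `T`-homogeneous (semi-invariant): `Q (g x) = χ(g) Q (x)` with `χ(g) ≠ 0`. -/
def IsTHomogeneous {ι : Type} (T : Subgroup (ι → ℂˣ)) (Q : MvPolynomial ι ℂ) : Prop :=
  ∀ g ∈ T, ∃ χ : ℂ, χ ≠ 0 ∧ ∀ x : ι → ℂ,
    MvPolynomial.eval (fun i => (g i : ℂ) * x i) Q = χ * MvPolynomial.eval x Q

/-- The variety `X = {G_1 = … = G_c = 0, H ≠ 0} / T`. -/
def variety {ι : Type} (T : Subgroup (ι → ℂˣ)) {c : ℕ} (G : Fin c → MvPolynomial ι ℂ)
    (H : MvPolynomial ι ℂ) : Set (Orbits T) :=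
  {P | ∃ x, P = pt T x ∧ (∀ j, MvPolynomial.eval x (G j) = 0) ∧ MvPolynomial.eval x H ≠ 0}

/-- The polynomial `Q` vanishes at `P`. -/
def VanishesAt {ι : Type} {T : Subgroup (ι → ℂˣ)} (Q : MvPolynomial ι ℂ) (P : Orbits T) : Prop :=
  ∃ x, P = pt T x ∧ MvPolynomial.eval x Q = 0

/-- The Zariski closure in `X` of a subset `S` of `X`. -/
def zariskiClosureIn {ι : Type} {T : Subgroup (ι → ℂˣ)} (X S : Set (Orbits T)) :
    Set (Orbits T) :=
  {P | P ∈ X ∧ ∀ Q : MvPolynomial ι ℂ, IsTHomogeneous T Q → (∀ s ∈ S, VanishesAt Q s) →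
    VanishesAt Q P}

/-- The map `f` is holomorphic at `z`: near `z` it is given by holomorphic homogeneous
coordinates. -/
def HolomorphicAt {ι : Type} [Fintype ι] {T : Subgroup (ι → ℂˣ)} (f : ℂ → Orbits T) (z : ℂ) :
    Prop :=
  ∃ φ : ℂ → (ι → ℂ), AnalyticAt ℂ φ z ∧ ∀ᶠ w in 𝓝 z, f w = pt T (φ w)

/-- The Zariski closure in `X` of the union of the images of the non-constant algebraic morphisms
`G_m = ℂ \ {0} → X` given by homogeneous coordinates that are polynomials in `t`.  It is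
contained in `Sp_sab(X)`, as `G_m` is a semi-abelian variety. -/
def SpGm {ι : Type} {T : Subgroup (ι → ℂˣ)} (X : Set (Orbits T)) : Set (Orbits T) :=
  zariskiClosureIn X {P | ∃ p : ι → Polynomial ℂ,
    (∀ t : ℂ, t ≠ 0 → pt T (fun i => (p i).eval t) ∈ X) ∧
    (∃ s t : ℂ, s ≠ 0 ∧ t ≠ 0 ∧ pt T (fun i => (p i).eval s) ≠ pt T (fun i => (p i).eval t)) ∧
    ∃ t : ℂ, t ≠ 0 ∧ pt T (fun i => (p i).eval t) = P}

/-- `Sp_h(X)`: the Zariski closure in `X` of the union of the images of the non-constant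
holomorphic maps `ℂ → X`. -/
def SpH {ι : Type} [Fintype ι] {T : Subgroup (ι → ℂˣ)} (X : Set (Orbits T)) : Set (Orbits T) :=
  zariskiClosureIn X {P | ∃ f : ℂ → Orbits T, (∀ z, HolomorphicAt f z) ∧ (∀ z, f z ∈ X) ∧
    (∃ z w, f z ≠ f w) ∧ ∃ z, f z = P}

/-- `Sp_p(X)`: the Zariski closure in `X` of the union of the images of the holomorphic maps
from the punctured unit disc to `X` which take two different values on two sequences that tend
to `0`; such a map has no continuous extension to the disc, with values in any Hausdorff space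
that contains `X`, so it has an essential singularity at `0`. -/
def SpP {ι : Type} [Fintype ι] {T : Subgroup (ι → ℂˣ)} (X : Set (Orbits T)) : Set (Orbits T) :=
  zariskiClosureIn X {P | ∃ f : ℂ → Orbits T,
    (∀ z, 0 < ‖z‖ → ‖z‖ < 1 → HolomorphicAt f z ∧ f z ∈ X) ∧
    (∃ P₁ P₂ : Orbits T, P₁ ≠ P₂ ∧ (∃ᶠ z in 𝓝[≠] (0 : ℂ), f z = P₁) ∧
      ∃ᶠ z in 𝓝[≠] (0 : ℂ), f z = P₂) ∧
    ∃ z, 0 < ‖z‖ ∧ ‖z‖ < 1 ∧ f z = P}

/-- The class `b` is indecomposable at the point with homogeneous coordinates `x`: if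
`0 ≤ c i ≤ b i` and the one-parameter group `u ↦ (u ^ c i)` agrees with elements of `T` on the
nonzero coordinates of `x`, then `c` is `0` or `b` on these coordinates. -/
def Indecomposable {ι : Type} (T : Subgroup (ι → ℂˣ)) (b : ι → ℕ) (x : ι → ℂ) : Prop :=
  ∀ c : ι → ℕ, (∀ i, x i ≠ 0 → c i ≤ b i) →
    (∀ u : ℂˣ, ∃ g ∈ T, ∀ i, x i ≠ 0 → (g i : ℂ) = (u : ℂ) ^ c i) →
    (∀ i, x i ≠ 0 → c i = 0) ∨ (∀ i, x i ≠ 0 → c i = b i)

/-- Condition (A) at `x`: for some indecomposable class `b`, `(K_X + D) · b ≤ 0` and `D · b ≥ 2`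
(or `D · b ≤ 1` and `(K_X + D) · b ≤ D · b - 2`). -/
def ConditionA {ι : Type} [Fintype ι] (T : Subgroup (ι → ℂˣ)) {c : ℕ}
    (G : Fin c → MvPolynomial ι ℂ) (H : MvPolynomial ι ℂ) (x : ι → ℂ) : Prop :=
  ∃ (b : ι → ℕ) (e : Fin c → ℕ) (d : ℕ),
    (∀ j, MvPolynomial.IsWeightedHomogeneous b (G j) (e j)) ∧
    MvPolynomial.IsWeightedHomogeneous b H d ∧ ∑ j, e j + max d 2 ≤ ∑ i, b i ∧
    Indecomposable T b x

/-- Condition (B) at `x`: the equations are even in a coordinate `x_w ≠ 0`, and for some class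
`b` with `b w ≥ 1`, `(K_X + D) · b ≤ 0` and `D · b ≥ 1` (or `D · b = 0` and
`(K_X + D) · b ≤ -1`). -/
def ConditionB {ι : Type} [Fintype ι] {c : ℕ}
    (G : Fin c → MvPolynomial ι ℂ) (H : MvPolynomial ι ℂ) (x : ι → ℂ) : Prop :=
  ∃ (w : ι) (b : ι → ℕ) (e : Fin c → ℕ) (d : ℕ), x w ≠ 0 ∧ 1 ≤ b w ∧
    (∀ j, ∀ m ∈ (G j).support, Even (m w)) ∧ (∀ m ∈ H.support, Even (m w)) ∧
    (∀ j, MvPolynomial.IsWeightedHomogeneous b (G j) (e j)) ∧
    MvPolynomial.IsWeightedHomogeneous b H d ∧ ∑ j, e j + max d 1 ≤ ∑ i, b i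

/-- The points of `X` at which condition (A) or (B) holds. -/
def goodPart {ι : Type} [Fintype ι] (T : Subgroup (ι → ℂˣ)) {c : ℕ}
    (G : Fin c → MvPolynomial ι ℂ) (H : MvPolynomial ι ℂ) : Set (Orbits T) :=
  {P | ∃ x, P = pt T x ∧ (∀ j, MvPolynomial.eval x (G j) = 0) ∧ MvPolynomial.eval x H ≠ 0 ∧
    (ConditionA T G H x ∨ ConditionB G H x)}

/-- The group `{(u ^ a i)}`, whose quotient is the weighted projective space `P(a)`. -/
def weightedGroup {ι : Type} (a : ι → ℕ) : Subgroup (ι → ℂˣ) where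
  carrier := {g | ∃ u : ℂˣ, g = fun i => u ^ a i}
  mul_mem' := by
    rintro _ _ ⟨u, rfl⟩ ⟨v, rfl⟩
    exact ⟨u * v, by funext i; simp [mul_pow]⟩
  one_mem' := ⟨1, by funext i; simp⟩
  inv_mem' := by
    rintro _ ⟨u, rfl⟩
    exact ⟨u⁻¹, by funext i; simp⟩

/-! ### Proofs -/

lemma pt_eq_iff {ι : Type} {T : Subgroup (ι → ℂˣ)} {x y : ι → ℂ} :
    pt T x = pt T y ↔ ∃ g ∈ T, ∀ i, y i = (g i : ℂ) * x i :=
  Quotient.eq (r := orbitSetoid T)

/-- The main construction. -/
lemma exists_Gm_of_good {ι : Type} [Fintype ι] (T : Subgroup (ι → ℂˣ)) {c : ℕ}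
    (G : Fin c → MvPolynomial ι ℂ) (H : MvPolynomial ι ℂ) (x : ι → ℂ)
    (hx : ∀ j, MvPolynomial.eval x (G j) = 0) (hHx : MvPolynomial.eval x H ≠ 0)
    (h : ConditionA T G H x ∨ ConditionB G H x) :
    ∃ p : ι → Polynomial ℂ, (∀ i, (p i).eval 1 = x i) ∧
      (∀ j z, MvPolynomial.eval (fun i => (p i).eval z) (G j) = 0) ∧
      (∀ z, z ≠ 0 → MvPolynomial.eval (fun i => (p i).eval z) H ≠ 0) ∧
      ∃ z, z ≠ 0 ∧ pt T (fun i => (p i).eval z) ≠ pt T x := by
  classical
  rcases h with ⟨b, e, d, hG, hH, hdeg, hind⟩ | ⟨w, b, e, d, hxw, hbw, hGw, hHw, hG, hH, hdeg⟩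
  · obtain ⟨p, -, h1, h2, h3, z, hz, h4⟩ := Pool.Agent.H6.Toric.exists_Gm T b e d G H hG hH hdeg x
      hx hHx hind
    refine ⟨p, h1, h2, h3, z, hz, fun h5 => h4 ?_⟩
    exact pt_eq_iff.mp h5.symm
  · obtain ⟨p, h1, h2, h3, z, hz, h4⟩ := Pool.Agent.H6.Toric.exists_Gm_reflection T w b hbw e d
      (fun j => Pool.Agent.H6.Toric.halved w (G j)) (Pool.Agent.H6.Toric.halved w H)
      (fun j => Pool.Agent.H6.Toric.halved_isWeightedHomogeneous w b _ (hGw j) (hG j))
      (Pool.Agent.H6.Toric.halved_isWeightedHomogeneous w b _ hHw hH) hdeg x hxw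
      (fun j => by rw [Pool.Agent.H6.Toric.eval_halved w _ (hGw j)]; exact hx j)
      (by rw [Pool.Agent.H6.Toric.eval_halved w _ hHw]; exact hHx)
    refine ⟨p, h1, ?_, ?_, z, hz, fun h5 => h4 ?_⟩
    · intro j z
      rw [← Pool.Agent.H6.Toric.eval_halved w _ (hGw j)]
      exact h2 j z
    · intro z hz
      rw [← Pool.Agent.H6.Toric.eval_halved w _ hHw]
      exact h3 z hz
    · exact pt_eq_iff.mp h5.symm

lemma holomorphicAt_comp {ι : Type} [Fintype ι] {T : Subgroup (ι → ℂˣ)} (p : ι → Polynomial ℂ)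
    (τ : ℂ → ℂ) (z : ℂ) (hτ : AnalyticAt ℂ τ z) :
    HolomorphicAt (fun w => pt T fun i => (p i).eval (τ w)) z := by
  refine ⟨fun w i => (p i).eval (τ w), ?_, Filter.Eventually.of_forall fun w => rfl⟩
  rw [analyticAt_pi_iff]
  intro i
  have h1 : AnalyticAt ℂ (fun y : ℂ => (p i).eval y) (τ z) :=
    ((p i).differentiable.differentiableOn (s := Set.univ)).analyticAt Filter.univ_mem
  exact h1.comp hτ

lemma zariskiClosureIn_mono {ι : Type} {T : Subgroup (ι → ℂˣ)} {X S S' : Set (Orbits T)}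
    (h : S ⊆ S') : zariskiClosureIn X S ⊆ zariskiClosureIn X S' :=
  fun _ hP => ⟨hP.1, fun Q hQ hT => hP.2 Q hQ fun s hs => hT s (h hs)⟩

lemma tendsto_seq (ρ : ℂ) :
    Tendsto (fun k : ℕ => (ρ + (k : ℂ) * (2 * (Real.pi : ℂ) * Complex.I))⁻¹) atTop (𝓝 0) := by
  have hpi : (2 * (Real.pi : ℂ) * Complex.I) ≠ 0 := Complex.two_pi_I_ne_zero
  rw [tendsto_zero_iff_norm_tendsto_zero]
  simp only [norm_inv]
  apply Tendsto.inv_tendsto_atTop
  have h3 : Tendsto (fun k : ℕ => (k : ℝ) * ‖2 * (Real.pi : ℂ) * Complex.I‖ - ‖ρ‖) atTop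
      atTop := by
    apply tendsto_atTop_add_const_right
    exact Tendsto.atTop_mul_const (norm_pos_iff.mpr hpi) tendsto_natCast_atTop_atTop
  refine tendsto_atTop_mono (fun k => ?_) h3
  have h4 : ‖(k : ℂ) * (2 * (Real.pi : ℂ) * Complex.I)‖ =
      (k : ℝ) * ‖2 * (Real.pi : ℂ) * Complex.I‖ := by
    rw [norm_mul, Complex.norm_natCast]
  rw [← h4]
  have h5 := norm_sub_norm_le ((k : ℂ) * (2 * (Real.pi : ℂ) * Complex.I)) (-ρ)
  rw [norm_neg, sub_neg_eq_add] at h5
  rw [add_comm ρ]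
  exact h5

/-- `exp (1 / z)` takes the value `exp ρ` arbitrarily close to `0`. -/
lemma frequently_exp (ρ : ℂ) : ∃ᶠ z in 𝓝[≠] (0 : ℂ), Complex.exp z⁻¹ = Complex.exp ρ := by
  have h1 : Tendsto (fun k : ℕ => (ρ + (k : ℂ) * (2 * (Real.pi : ℂ) * Complex.I))⁻¹) atTop
      (𝓝[≠] 0) := by
    rw [tendsto_nhdsWithin_iff]
    refine ⟨tendsto_seq ρ, ?_⟩
    have h5 : Tendsto (fun k : ℕ => (k : ℝ) * ‖2 * (Real.pi : ℂ) * Complex.I‖)
        atTop atTop :=
      Tendsto.atTop_mul_const (norm_pos_iff.mpr Complex.two_pi_I_ne_zero)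
        tendsto_natCast_atTop_atTop
    filter_upwards [h5.eventually_gt_atTop ‖ρ‖] with k hk
    rw [Set.mem_compl_iff, Set.mem_singleton_iff, inv_eq_zero]
    intro h6
    have h7 : ρ = -((k : ℂ) * (2 * (Real.pi : ℂ) * Complex.I)) :=
      eq_neg_of_add_eq_zero_left h6
    rw [h7, norm_neg, norm_mul, Complex.norm_natCast] at hk
    exact lt_irrefl _ hk
  refine h1.frequently (Eventually.frequently (Eventually.of_forall fun k => ?_))
  rw [inv_inv]
  exact Complex.exp_periodic.nat_mul k ρ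

lemma good_subset {ι : Type} [Fintype ι] (T : Subgroup (ι → ℂˣ)) {c : ℕ}
    (G : Fin c → MvPolynomial ι ℂ) (H : MvPolynomial ι ℂ) :
    (goodPart T G H ⊆ {P | ∃ p : ι → Polynomial ℂ,
      (∀ t : ℂ, t ≠ 0 → pt T (fun i => (p i).eval t) ∈ variety T G H) ∧
      (∃ s t : ℂ, s ≠ 0 ∧ t ≠ 0 ∧ pt T (fun i => (p i).eval s) ≠ pt T (fun i => (p i).eval t)) ∧
      ∃ t : ℂ, t ≠ 0 ∧ pt T (fun i => (p i).eval t) = P}) ∧
    (goodPart T G H ⊆ {P | ∃ f : ℂ → Orbits T, (∀ z, HolomorphicAt f z) ∧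
      (∀ z, f z ∈ variety T G H) ∧ (∃ z w, f z ≠ f w) ∧ ∃ z, f z = P}) ∧
    (goodPart T G H ⊆ {P | ∃ f : ℂ → Orbits T,
      (∀ z, 0 < ‖z‖ → ‖z‖ < 1 → HolomorphicAt f z ∧ f z ∈ variety T G H) ∧
      (∃ P₁ P₂ : Orbits T, P₁ ≠ P₂ ∧ (∃ᶠ z in 𝓝[≠] (0 : ℂ), f z = P₁) ∧
        ∃ᶠ z in 𝓝[≠] (0 : ℂ), f z = P₂) ∧
      ∃ z, 0 < ‖z‖ ∧ ‖z‖ < 1 ∧ f z = P}) := by
  have key : ∀ P ∈ goodPart T G H, ∃ p : ι → Polynomial ℂ,
      (∀ t : ℂ, t ≠ 0 → pt T (fun i => (p i).eval t) ∈ variety T G H) ∧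
      pt T (fun i => (p i).eval 1) = P ∧
      ∃ z, z ≠ 0 ∧ pt T (fun i => (p i).eval z) ≠ pt T (fun i => (p i).eval 1) := by
    rintro P ⟨x, rfl, hx, hHx, h⟩
    obtain ⟨p, h1, h2, h3, z, hz, h4⟩ := exists_Gm_of_good T G H x hx hHx h
    have h5 : (fun i => (p i).eval 1) = x := funext h1
    refine ⟨p, fun t ht => ⟨_, rfl, fun j => h2 j t, h3 t ht⟩, by rw [h5], z, hz, ?_⟩
    rw [h5]
    exact h4
  refine ⟨?_, ?_, ?_⟩
  · intro P hP
    obtain ⟨p, h1, h2, z, hz, h3⟩ := key P hP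
    exact ⟨p, h1, ⟨z, 1, hz, one_ne_zero, h3⟩, 1, one_ne_zero, h2⟩
  · intro P hP
    obtain ⟨p, h1, h2, z, hz, h3⟩ := key P hP
    refine ⟨fun w => pt T fun i => (p i).eval (Complex.exp w), fun w =>
      holomorphicAt_comp p _ w (by fun_prop), fun w => h1 _ (Complex.exp_ne_zero w),
      ⟨Complex.log z, 0, ?_⟩, 0, ?_⟩
    · simp only [Complex.exp_log hz, Complex.exp_zero]
      exact h3
    · simp only [Complex.exp_zero]
      exact h2
  · intro P hP
    obtain ⟨p, h1, h2, z, hz, h3⟩ := key P hP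
    refine ⟨fun w => pt T fun i => (p i).eval (Complex.exp w⁻¹), ?_,
      ⟨pt T fun i => (p i).eval z, pt T fun i => (p i).eval 1, h3, ?_, ?_⟩,
      (2 * (Real.pi : ℂ) * Complex.I)⁻¹, ?_, ?_, ?_⟩
    · intro w hw _
      have hw0 : w ≠ 0 := norm_pos_iff.mp hw
      exact ⟨holomorphicAt_comp p _ w ((analyticAt_id.inv hw0).cexp),
        h1 _ (Complex.exp_ne_zero _)⟩
    · refine (frequently_exp (Complex.log z)).mono fun w hw => ?_
      simp only [hw, Complex.exp_log hz]
    · refine (frequently_exp 0).mono fun w hw => ?_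
      simp only [hw, Complex.exp_zero]
    · exact norm_pos_iff.mpr (inv_ne_zero Complex.two_pi_I_ne_zero)
    · rw [norm_inv]
      apply inv_lt_one_of_one_lt₀
      rw [norm_mul, norm_mul, Complex.norm_I, mul_one]
      simp only [Complex.norm_ofNat, Complex.norm_real, Real.norm_eq_abs,
        abs_of_pos Real.pi_pos]
      linarith [Real.pi_gt_three]
    · simp only [inv_inv, Complex.exp_two_pi_mul_I]
      exact h2

/-- Every point of a weighted projective space whose nonzero coordinates have coprime weights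
is good for the class of degree one. -/
lemma indecomposable_weighted {ι : Type} [Fintype ι] (a : ι → ℕ) (x : ι → ℂ)
    (hgcd : ∀ k : ℕ, (∀ i, x i ≠ 0 → k ∣ a i) → k = 1) :
    Indecomposable (weightedGroup a) a x := by
  classical
  intro c hc hT
  -- the proportionality
  have hprop : ∀ i j, x i ≠ 0 → x j ≠ 0 → c i * a j = c j * a i := by
    intro i j hi hj
    obtain ⟨_, ⟨u, rfl⟩, hu⟩ := hT (Units.mk0 2 two_ne_zero)
    have hn : ∀ k, x k ≠ 0 → (a k : ℝ) * Real.log ‖(u : ℂ)‖ = c k * Real.log 2 := by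
      intro k hk
      have h1 := hu k hk
      have h2 := congrArg (fun z : ℂ => Real.log ‖z‖) h1
      simpa [norm_pow, Real.log_pow] using h2
    have h1 := hn i hi
    have h2 := hn j hj
    have hlog : Real.log 2 ≠ 0 := by
      have := Real.log_pos (by norm_num : (1 : ℝ) < 2)
      exact this.ne'
    have h3 : ((c i : ℝ) * a j) * Real.log 2 = (c j * a i) * Real.log 2 := by
      linear_combination (-(a j : ℝ)) * h1 + (a i : ℝ) * h2
    have h4 := mul_right_cancel₀ hlog h3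
    exact_mod_cast h4
  -- every `a i` divides `c i`
  have hdvd : ∀ i, x i ≠ 0 → a i ∣ c i := by
    intro i hi
    -- the gcd of the weights
    set g := (Finset.univ.filter fun j => x j ≠ 0).gcd a with hg
    have hg1 : g = 1 := hgcd g fun j hj => Finset.gcd_dvd (by simpa using hj)
    have h1 : a i ∣ (Finset.univ.filter fun j => x j ≠ 0).gcd fun j => c i * a j := by
      apply Finset.dvd_gcd
      intro j hj
      rw [hprop i j hi (by simpa using hj)]
      exact Dvd.intro_left _ rfl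
    rw [Finset.gcd_mul_left, ← hg, hg1] at h1
    simpa using h1
  by_cases hall : ∀ i, x i ≠ 0 → c i = 0
  · exact Or.inl hall
  · right
    push Not at hall
    obtain ⟨i, hi, hci⟩ := hall
    have hai : 0 < a i := by
      rcases Nat.eq_zero_or_pos (a i) with h | h
      · have := hc i hi
        omega
      · exact h
    have hci' : c i = a i := by
      have h1 := Nat.le_of_dvd (Nat.pos_of_ne_zero hci) (hdvd i hi)
      exact le_antisymm (hc i hi) h1
    intro j hj
    have h1 := hprop i j hi hj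
    rw [hci', mul_comm (c j)] at h1
    exact (Nat.eq_of_mul_eq_mul_left hai h1).symm

/-- `X` is irreducible: it is not the union of two proper Zariski closed subsets. -/
def IsIrreducibleSet {ι : Type} {T : Subgroup (ι → ℂˣ)} (X : Set (Orbits T)) : Prop :=
  ∀ S S' : Set (Orbits T), zariskiClosureIn X S = S → zariskiClosureIn X S' = S' →
    X = S ∪ S' → X = S ∨ X = S'

lemma zariskiClosureIn_idem {ι : Type} {T : Subgroup (ι → ℂˣ)} (X S : Set (Orbits T)) :
    zariskiClosureIn X (zariskiClosureIn X S) = zariskiClosureIn X S := by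
  apply Set.Subset.antisymm
  · rintro P ⟨hP, h⟩
    exact ⟨hP, fun Q hQ hS => h Q hQ fun s hs => hs.2 Q hQ hS⟩
  · rintro P hP
    exact ⟨hP.1, fun Q _ hS => hS P hP⟩

/-- **Theorem.**  Let `T` be a group of diagonal matrices on `ℂ^ι`, let `G j` and `H` be
`T`-homogeneous polynomials, and `X = {G j = 0, H ≠ 0} / T`.

1. Through every point of `X` at which condition (A) or (B) holds passes a non-constant
   morphism `G_m → X`.
2. The Zariski closure in `X` of the set of these points is contained in `Sp_Gm(X)`,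
   `Sp_h(X)` and `Sp_p(X)`.
3. If (A) or (B) holds at every point of `X`, then `Sp_Gm(X) = Sp_h(X) = Sp_p(X) = X`.
4. The same is true if `X` is irreducible, contains a point all of whose coordinates are nonzero,
   and (A) or (B) holds at all such points.
5. In a weighted projective space, `T = {(u ^ a i)}`, with `G j` and `H` weighted homogeneous of
   degrees `e j` and `d` and `∑ e j + max d 2 ≤ ∑ a i`, condition (A) holds at all points whose
   nonzero coordinates have coprime weights; in particular, for `d ≥ 1` and `a = 1`, at all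
   points of `X`. -/
theorem result {ι : Type} [Fintype ι] (T : Subgroup (ι → ℂˣ)) {c : ℕ}
    (G : Fin c → MvPolynomial ι ℂ) (H : MvPolynomial ι ℂ)
    (hG : ∀ j, IsTHomogeneous T (G j)) (hH : IsTHomogeneous T H) :
    (∀ x : ι → ℂ, (∀ j, MvPolynomial.eval x (G j) = 0) → MvPolynomial.eval x H ≠ 0 →
      (ConditionA T G H x ∨ ConditionB G H x) →
      ∃ p : ι → Polynomial ℂ, (∀ i, (p i).eval 1 = x i) ∧
        (∀ t : ℂ, t ≠ 0 → pt T (fun i => (p i).eval t) ∈ variety T G H) ∧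
        ∃ t : ℂ, t ≠ 0 ∧ pt T (fun i => (p i).eval t) ≠ pt T x) ∧
    (zariskiClosureIn (variety T G H) (goodPart T G H) ⊆
      SpGm (variety T G H) ∩ SpH (variety T G H) ∩ SpP (variety T G H)) ∧
    (variety T G H ⊆ goodPart T G H → SpGm (variety T G H) = variety T G H ∧
      SpH (variety T G H) = variety T G H ∧ SpP (variety T G H) = variety T G H) ∧
    (IsIrreducibleSet (variety T G H) →
      (∃ x : ι → ℂ, (∀ i, x i ≠ 0) ∧ pt T x ∈ variety T G H) →
      (∀ x : ι → ℂ, (∀ i, x i ≠ 0) → pt T x ∈ variety T G H → pt T x ∈ goodPart T G H) →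
      SpGm (variety T G H) = variety T G H ∧
      SpH (variety T G H) = variety T G H ∧ SpP (variety T G H) = variety T G H) ∧
    (∀ (a : ι → ℕ) (e : Fin c → ℕ) (d : ℕ), T = weightedGroup a →
      (∀ j, MvPolynomial.IsWeightedHomogeneous a (G j) (e j)) →
      MvPolynomial.IsWeightedHomogeneous a H d → ∑ j, e j + max d 2 ≤ ∑ i, a i →
      (∀ x : ι → ℂ, (∀ k : ℕ, (∀ i, x i ≠ 0 → k ∣ a i) → k = 1) → ConditionA T G H x) ∧
      (1 ≤ d → (∀ i, a i = 1) → variety T G H ⊆ goodPart T G H)) := by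
  classical
  have heq : ∀ S : Set (Orbits T), variety T G H ⊆ zariskiClosureIn (variety T G H) S →
      ∀ S', S ⊆ S' → zariskiClosureIn (variety T G H) S' = variety T G H := by
    intro S hS S' hSS'
    apply Set.Subset.antisymm
    · intro P hP
      exact hP.1
    · exact hS.trans (zariskiClosureIn_mono hSS')
  have hall : variety T G H ⊆ zariskiClosureIn (variety T G H) (goodPart T G H) →
      SpGm (variety T G H) = variety T G H ∧
      SpH (variety T G H) = variety T G H ∧ SpP (variety T G H) = variety T G H := by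
    intro h
    obtain ⟨h1, h2, h3⟩ := good_subset T G H
    exact ⟨heq _ h _ h1, heq _ h _ h2, heq _ h _ h3⟩
  refine ⟨?_, ?_, ?_, ?_, ?_⟩
  · intro x hx hHx h
    obtain ⟨p, h1, h2, h3, z, hz, h4⟩ := exists_Gm_of_good T G H x hx hHx h
    exact ⟨p, h1, fun t ht => ⟨_, rfl, fun j => h2 j t, h3 t ht⟩, z, hz, h4⟩
  · obtain ⟨h1, h2, h3⟩ := good_subset T G H
    intro P hP
    exact ⟨⟨zariskiClosureIn_mono h1 hP, zariskiClosureIn_mono h2 hP⟩,
      zariskiClosureIn_mono h3 hP⟩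
  · intro h
    apply hall
    intro P hP
    exact ⟨hP, fun Q _ hS => hS P (h hP)⟩
  · rintro hirr ⟨x₀, hx₀, hx₀X⟩ hgood
    apply hall
    set X := variety T G H with hX
    set M : MvPolynomial ι ℂ := ∏ i, MvPolynomial.X i with hM
    have hMT : IsTHomogeneous T M := by
      intro g _
      refine ⟨∏ i, (g i : ℂ), Finset.prod_ne_zero_iff.mpr fun i _ => (g i).ne_zero, fun x => ?_⟩
      simp [hM, map_prod, Finset.prod_mul_distrib]
    have hT : zariskiClosureIn X {P | P ∈ X ∧ VanishesAt M P} = {P | P ∈ X ∧ VanishesAt M P} := by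
      apply Set.Subset.antisymm
      · rintro P ⟨hP, h⟩
        exact ⟨hP, h M hMT fun s hs => hs.2⟩
      · rintro P hP
        exact ⟨hP.1, fun Q _ hS => hS P hP⟩
    have hU : X = zariskiClosureIn X (goodPart T G H) ∪ {P | P ∈ X ∧ VanishesAt M P} := by
      apply Set.Subset.antisymm
      · intro P hP
        obtain ⟨x, rfl, hx, hHx⟩ := id hP
        by_cases h0 : ∀ i, x i ≠ 0
        · left
          exact ⟨hP, fun Q _ hS => hS _ (hgood x h0 hP)⟩
        · right
          push Not at h0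
          obtain ⟨i, hi⟩ := h0
          refine ⟨hP, x, rfl, ?_⟩
          rw [hM, map_prod]
          apply Finset.prod_eq_zero (Finset.mem_univ i)
          rw [MvPolynomial.eval_X, hi]
      · rintro P (hP | hP)
        · exact hP.1
        · exact hP.1
    rcases hirr _ _ (zariskiClosureIn_idem _ _) hT hU with h | h
    · exact h.le
    · exfalso
      rw [h] at hx₀X
      obtain ⟨-, y, hy, hMy⟩ := hx₀X
      obtain ⟨g, -, hg⟩ := pt_eq_iff.mp hy
      rw [hM, map_prod] at hMy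
      obtain ⟨i, -, hi⟩ := Finset.prod_eq_zero_iff.mp hMy
      rw [MvPolynomial.eval_X, hg i] at hi
      exact mul_ne_zero (g i).ne_zero (hx₀ i) hi
  · intro a e d hTa hGa hHa hdeg
    have hA : ∀ x : ι → ℂ, (∀ k : ℕ, (∀ i, x i ≠ 0 → k ∣ a i) → k = 1) →
        ConditionA T G H x := by
      intro x hx
      refine ⟨a, e, d, hGa, hHa, hdeg, ?_⟩
      rw [hTa]
      exact indecomposable_weighted a x hx
    refine ⟨hA, ?_⟩
    rintro hd ha P ⟨x, rfl, hx, hHx⟩
    refine ⟨x, rfl, hx, hHx, Or.inl (hA x ?_)⟩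
    intro k hk
    have hx0 : ∃ i, x i ≠ 0 := by
      by_contra hcon
      push Not at hcon
      apply hHx
      have h1 := Pool.Agent.H6.Toric.eval_weighted hHa 0 x
      have h2 : (fun i => (0 : ℂ) ^ a i * x i) = x := by
        funext i
        rw [hcon i, mul_zero]
      rw [h2, zero_pow (by omega), zero_mul] at h1
      exact h1
    obtain ⟨i, hi⟩ := hx0
    have h1 := hk i hi
    rw [ha i] at h1
    exact Nat.dvd_one.mp h1

end Pool.Agent.Results.MP_160ed4_ag.ToricLogCY
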